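import Pool.Agent.L7h38.UC.Stm2

set_option autoImplicit false

/-!
# Project UC, part CEX: the chain with `d = 2` and `k = n / 2` mixes in two rings up to a constant
-/

namespace Pool.Agent.L7h76.UC

open Finset Pool.Agent.L7h38.UC

theorem row_sum {d n : ℕ} (c : Cf d n) (i : Fin d) : ∑ j, cn c i j = n := by
  have h := Finset.card_eq_sum_card_fiberwise (f := c i) (s := (univ : Finset (Fin n)))
    (t := (univ : Finset (Fin d))) (fun _ _ => mem_coe.2 (mem_univ _))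
  rw [card_univ, Fintype.card_fin] at h
  simp only [cn]
  rw [← Nat.cast_sum]
  exact_mod_cast h.symm

theorem PM_eq (hI : S_INV) {d n : ℕ} (k : ℕ) (σ : Equiv.Perm (Fin d)) (F : Mt d → ℝ)
    (c : Cf d n) : PM n k σ F (cn c) = PL k σ F c := by
  have h : ∃ c' : Cf d n, cn c' = cn c := ⟨c, rfl⟩
  unfold PM
  rw [dif_pos h]
  exact hI d n k σ F _ _ h.choose_spec

/-- the balanced matrix with entry `b` at `0 0` -/
def mat (m : ℕ) (b : ℤ) : Mt 2 := fun i j => if i = j then b else 2 * m - b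

theorem eq_mat {m : ℕ} {c : Cf 2 (2 * m)} (hc : Bal c) : cn c = mat m (cn c 0 0) := by
  have h1 := row_sum c 0
  have h2 := hc 0
  have h3 := hc 1
  rw [Fin.sum_univ_two] at h1 h2 h3
  push_cast at h1 h2 h3
  funext i j
  fin_cases i <;> fin_cases j <;> simp [mat] <;> linarith

theorem PN_two (n k : ℕ) (F : Mt 2 → ℝ) (A : Mt 2) :
    PN mu2 n k 2 F A = PW n k [Equiv.swap 0 1, Equiv.swap 0 1] F A := by
  simp [PN, EW, mu2]

/-- after the first ring the entry is near `m` with probability at least `1 / 2` -/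
theorem near (hM : S_MOM) (hP : S_PWB) {m : ℕ} (hm : 1 ≤ m) (c : Cf 2 (2 * m)) (hc : Bal c) :
    1 / 2 ≤ PW (2 * m) m [Equiv.swap 0 1]
      (fun A => if |(A 0 0 : ℝ) - m| ≤ 4 * Real.sqrt m then 1 else 0) (cn c) := by
  obtain ⟨P1, P2, P3, -, -⟩ := hP
  have hm0 : (0 : ℝ) < m := by exact_mod_cast hm
  have hmom := hM 2 (2 * m) m (by omega) (by omega) [Equiv.swap 0 1] c (fun _ _ => (m : ℝ))
  have hz : nf2 (fun i j => mw ((m : ℝ) / ((2 * m : ℕ) : ℝ)) [Equiv.swap 0 1] (rl (cn c)) i j -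
      (m : ℝ)) = 0 := by
    have h2 := hc 0
    have h3 := hc 1
    rw [Fin.sum_univ_two] at h2 h3
    have h2' : (cn c 0 0 : ℝ) + (cn c 1 0 : ℝ) = 2 * m := by
      have : ((cn c 0 0 + cn c 1 0 : ℤ) : ℝ) = (((2 * m : ℕ) : ℤ) : ℝ) := by rw [h2]
      push_cast at this
      exact this
    have h3' : (cn c 0 1 : ℝ) + (cn c 1 1 : ℝ) = 2 * m := by
      have : ((cn c 0 1 + cn c 1 1 : ℤ) : ℝ) = (((2 * m : ℕ) : ℤ) : ℝ) := by rw [h3]
      push_cast at this
      exact this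
    have hl : (m : ℝ) / ((2 * m : ℕ) : ℝ) = 1 / 2 := by
      push_cast
      field_simp
    rw [hl]
    simp only [nf2, mw, ms, rl, Fin.sum_univ_two, Equiv.swap_inv, Equiv.swap_apply_left,
      Equiv.swap_apply_right]
    have e1 : (1 - 1 / 2 : ℝ) * (cn c 0 0 : ℝ) + 1 / 2 * (cn c 1 0 : ℝ) - m = 0 := by linarith
    have e2 : (1 - 1 / 2 : ℝ) * (cn c 0 1 : ℝ) + 1 / 2 * (cn c 1 1 : ℝ) - m = 0 := by linarith
    have e3 : (1 - 1 / 2 : ℝ) * (cn c 1 0 : ℝ) + 1 / 2 * (cn c 0 0 : ℝ) - m = 0 := by linarith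
    have e4 : (1 - 1 / 2 : ℝ) * (cn c 1 1 : ℝ) + 1 / 2 * (cn c 0 1 : ℝ) - m = 0 := by linarith
    rw [e1, e2, e3, e4]
    norm_num
  rw [hz, zero_add, List.length_singleton] at hmom
  have hcmp := P1 2 (2 * m) m (by omega) [Equiv.swap 0 1]
    (fun A => (1 : ℝ) * 1 + (-1 / (64 * m)) * nf2 (fun i j => rl A i j - (m : ℝ)))
    (fun A => if |(A 0 0 : ℝ) - m| ≤ 4 * Real.sqrt m then 1 else 0) (fun c' hc' => by
      have hnf : nf2 (fun i j => rl (cn c') i j - (m : ℝ)) = 4 * ((cn c' 0 0 : ℝ) - m) ^ 2 := by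
        rw [eq_mat hc']
        simp only [nf2, rl, mat, Fin.sum_univ_two]
        simp only [if_true, Fin.isValue, zero_ne_one, one_ne_zero, if_false]
        push_cast
        ring
      rw [hnf]
      split_ifs with h
      · have : 0 ≤ 1 / (64 * (m : ℝ)) * (4 * ((cn c' 0 0 : ℝ) - m) ^ 2) := by positivity
        have e : -1 / (64 * (m : ℝ)) * (4 * ((cn c' 0 0 : ℝ) - m) ^ 2) =
          -(1 / (64 * (m : ℝ)) * (4 * ((cn c' 0 0 : ℝ) - m) ^ 2)) := by ring
        linarith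
      · push Not at h
        have h1 : (4 * Real.sqrt m) ^ 2 ≤ |(cn c' 0 0 : ℝ) - m| ^ 2 :=
          pow_le_pow_left₀ (by positivity) h.le 2
        rw [sq_abs, mul_pow, Real.sq_sqrt hm0.le] at h1
        have h2 : 1 ≤ 1 / (64 * (m : ℝ)) * (4 * ((cn c' 0 0 : ℝ) - m) ^ 2) := by
          rw [div_mul_eq_mul_div, le_div_iff₀ (by positivity)]
          linarith
        have e : -1 / (64 * (m : ℝ)) * (4 * ((cn c' 0 0 : ℝ) - m) ^ 2) =
          -(1 / (64 * (m : ℝ)) * (4 * ((cn c' 0 0 : ℝ) - m) ^ 2)) := by ring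
        linarith) c hc
  rw [P2 2 (2 * m) m [Equiv.swap 0 1] (fun _ => (1 : ℝ))
    (fun A => nf2 (fun i j => rl A i j - (m : ℝ))) 1 (-1 / (64 * m)) (cn c),
    P3 2 (2 * m) m (by omega)] at hcmp
  refine le_trans ?_ hcmp
  generalize PW (2 * m) m [Equiv.swap 0 1] (fun A => nf2 (fun i j => rl A i j - (m : ℝ))) (cn c) =
    X at hmom ⊢
  have h5 : 1 / (64 * (m : ℝ)) * X ≤ 1 / (64 * (m : ℝ)) * (4 * (2 : ℕ) ^ 2 * (2 * m : ℕ) * (1 : ℕ)) :=
    mul_le_mul_of_nonneg_left hmom (by positivity)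
  have h6 : 1 / (64 * (m : ℝ)) * (4 * (2 : ℕ) ^ 2 * (2 * m : ℕ) * (1 : ℕ)) = 1 / 2 := by
    push_cast; field_simp; norm_num
  have e : -1 / (64 * (m : ℝ)) * X = -(1 / (64 * (m : ℝ)) * X) := by ring
  linarith

/-- the law after two rings has large atoms -/
theorem atom (hM : S_MOM) (hI : S_INV) (hP : S_PWB) {m : ℕ} (hm : 1 ≤ m) {κ : ℝ} (hκ : 0 < κ)
    (hL : ∀ c : Cf 2 (2 * m), Bal c →
      |(cn c 0 0 : ℝ) - m| ≤ 4 * Real.sqrt m → ∀ b : ℤ, 0 ≤ b → b ≤ 2 * m →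
      |(b : ℝ) - m| ≤ Real.sqrt m →
      κ / Real.sqrt m ≤ PL m (Equiv.swap 0 1) (fun A => if A 0 0 = b then 1 else 0) c)
    (c : Cf 2 (2 * m)) (hc : Bal c) (b : ℤ) (hb0 : 0 ≤ b) (hb1 : b ≤ 2 * m)
    (hb2 : |(b : ℝ) - m| ≤ Real.sqrt m) :
    κ / 2 / Real.sqrt m ≤ PW (2 * m) m [Equiv.swap 0 1, Equiv.swap 0 1]
      (fun A => if A 0 0 = b then 1 else 0) (cn c) := by
  have hnear := near hM hP hm c hc
  obtain ⟨P1, P2, P3, -, P5⟩ := hP
  have hm0 : (0 : ℝ) < m := by exact_mod_cast hm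
  have hs0 : 0 < Real.sqrt m := Real.sqrt_pos.2 hm0
  have h1 : PW (2 * m) m [Equiv.swap 0 1, Equiv.swap 0 1]
      (fun A : Mt 2 => if A 0 0 = b then (1 : ℝ) else 0) (cn c) =
      PW (2 * m) m [Equiv.swap 0 1] (PW (2 * m) m [Equiv.swap 0 1]
        (fun A : Mt 2 => if A 0 0 = b then (1 : ℝ) else 0)) (cn c) :=
    P5 2 (2 * m) m [Equiv.swap 0 1] [Equiv.swap 0 1] _ _
  rw [h1]
  have hcmp := P1 2 (2 * m) m (by omega) [Equiv.swap 0 1]
    (fun A => (κ / Real.sqrt m) * (if |(A 0 0 : ℝ) - m| ≤ 4 * Real.sqrt m then 1 else 0) + 0 * 1)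
    (PW (2 * m) m [Equiv.swap 0 1] (fun A : Mt 2 => if A 0 0 = b then (1 : ℝ) else 0))
    (fun c' hc' => by
      rw [zero_mul, add_zero]
      split_ifs with h
      · rw [mul_one]
        refine (hL c' hc' h b hb0 hb1 hb2).trans (le_of_eq ?_)
        exact (PM_eq hI m _ _ c').symm
      · rw [mul_zero]
        have h2 := P1 2 (2 * m) m (by omega) [Equiv.swap 0 1] (fun _ => (0 : ℝ))
          (fun A : Mt 2 => if A 0 0 = b then (1 : ℝ) else 0)
          (fun _ _ => by split_ifs <;> norm_num) c' hc'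
        rwa [P3 2 (2 * m) m (by omega)] at h2) c hc
  rw [P2 2 (2 * m) m [Equiv.swap 0 1]
    (fun A => if |(A 0 0 : ℝ) - m| ≤ 4 * Real.sqrt m then (1 : ℝ) else 0) (fun _ => (1 : ℝ))
    (κ / Real.sqrt m) 0 (cn c), zero_mul, add_zero] at hcmp
  refine le_trans ?_ hcmp
  calc κ / 2 / Real.sqrt m = κ / Real.sqrt m * (1 / 2) := by ring
    _ ≤ _ := mul_le_mul_of_nonneg_left hnear (by positivity)

theorem PW_sum (hP : S_PWB) {d n k : ℕ} (w : List (Equiv.Perm (Fin d))) (A : Mt d)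
    {ι : Type} (J : Finset ι) (x : ι → ℝ) (f : ι → Mt d → ℝ) :
    PW n k w (fun B => ∑ b ∈ J, x b * f b B) A = ∑ b ∈ J, x b * PW n k w (f b) A := by
  classical
  obtain ⟨-, P2, -, P4, -⟩ := hP
  induction J using Finset.induction_on with
  | empty =>
    simp only [sum_empty]
    have h := P4 d n k w (fun _ => 0) 0 (fun _ => by simp) A
    exact abs_eq_zero.1 (le_antisymm h (abs_nonneg _))
  | insert b J hb ih =>
    rw [sum_insert hb, ← ih]
    have h := P2 d n k w (f b) (fun B => ∑ b ∈ J, x b * f b B) (x b) 1 A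
    rw [one_mul] at h
    rw [← h]
    congr 1
    funext B
    rw [sum_insert hb, one_mul]

theorem s_CEX (hL : S_LCL) (hM : S_MOM) (hI : S_INV) (hP : S_PWB) : S_CEX := by
  obtain ⟨κ, m0, hκ, hL⟩ := hL
  refine ⟨min (κ / 2) 1, max m0 1, lt_min (by positivity) one_pos, min_le_right _ _,
    fun m hm => ?_⟩
  have hm1 : 1 ≤ m := (le_max_right _ _).trans hm
  have hmm : m0 ≤ m := (le_max_left _ _).trans hm
  have hm0 : (0 : ℝ) < m := by exact_mod_cast hm1
  have hs0 : 0 < Real.sqrt m := Real.sqrt_pos.2 hm0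
  have hatom := fun (c : Cf 2 (2 * m)) (hc : Bal c) =>
    atom hM hI hP hm1 hκ (hL m hmm) c hc
  have hsum := fun (x : ℤ → ℝ) (J : Finset ℤ) (c : Cf 2 (2 * m)) => PW_sum hP (n := 2 * m) (k := m)
    [Equiv.swap 0 1, Equiv.swap 0 1] (cn c) J x
    (fun b (A : Mt 2) => if A 0 0 = b then (1 : ℝ) else 0)
  obtain ⟨P1, P2, P3, -, -⟩ := hP
  set r := Nat.sqrt m with hr
  have hrr : r * r ≤ m := Nat.sqrt_le m
  have hrs : (r : ℝ) ≤ Real.sqrt m := by
    rw [Real.le_sqrt (Nat.cast_nonneg _) hm0.le]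
    rw [pow_two]
    exact_mod_cast hrr
  have hrm : r ≤ m := by nlinarith
  have hsr : Real.sqrt m ≤ 2 * r + 1 := by
    have h1 : m < (r + 1) * (r + 1) := Nat.lt_succ_sqrt m
    have h2 : Real.sqrt m ≤ r + 1 := by
      rw [Real.sqrt_le_left (by positivity), pow_two]
      exact_mod_cast h1.le
    have h3 : (0 : ℝ) ≤ r := Nat.cast_nonneg _
    linarith
  let J : Finset ℤ := Finset.Icc ((m : ℤ) - r) (m + r)
  have hJ : ∀ b ∈ J, 0 ≤ b ∧ b ≤ 2 * m ∧ |(b : ℝ) - m| ≤ Real.sqrt m := by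
    intro b hb
    have h1 := Finset.mem_Icc.1 hb
    have h2 : (r : ℤ) ≤ m := by exact_mod_cast hrm
    refine ⟨by omega, by omega, ?_⟩
    have h3 : (m : ℝ) - r ≤ b := by exact_mod_cast h1.1
    have h4 : (b : ℝ) ≤ m + r := by exact_mod_cast h1.2
    rw [abs_le]
    constructor <;> linarith
  have hJc : (#J : ℝ) = 2 * r + 1 := by
    have : #J = 2 * r + 1 := by
      simp only [J, Int.card_Icc]
      omega
    rw [this]
    push_cast
    ring
  set p := κ / 2 / Real.sqrt m with hp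
  have hp0 : 0 < p := by positivity
  have hδ : min (κ / 2) 1 ≤ #J * p := by
    refine (min_le_left _ _).trans ?_
    rw [hJc, hp, mul_div_assoc', le_div_iff₀ hs0]
    have := mul_le_mul_of_nonneg_right hsr (by positivity : 0 ≤ κ / 2)
    linarith
  -- lower bound for nonnegative functions
  have key : ∀ H : Mt 2 → ℝ, (∀ A, 0 ≤ H A) → ∀ c : Cf 2 (2 * m), Bal c →
      p * ∑ b ∈ J, H (mat m b) ≤ PW (2 * m) m [Equiv.swap 0 1, Equiv.swap 0 1] H (cn c) := by
    intro H hH c hc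
    have h1 := P1 2 (2 * m) m (by omega) [Equiv.swap 0 1, Equiv.swap 0 1]
      (fun A => ∑ b ∈ J, H (mat m b) * (if A 0 0 = b then (1 : ℝ) else 0)) H (fun c' hc' => by
        simp only [mul_ite, mul_one, mul_zero, Finset.sum_ite_eq]
        split_ifs with h
        · rw [← eq_mat hc']
        · exact hH _) c hc
    rw [hsum (fun b => H (mat m b)) J c] at h1
    refine le_trans ?_ h1
    rw [mul_sum]
    refine sum_le_sum fun b hb => ?_
    obtain ⟨hb0, hb1, hb2⟩ := hJ b hb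
    rw [mul_comm]
    exact mul_le_mul_of_nonneg_left (hatom c hc b hb0 hb1 hb2) (hH _)
  intro F hF c c' hc hc'
  rw [PN_two, PN_two]
  set ν := p * ∑ b ∈ J, F (mat m b) with hν
  have hall : ∀ c : Cf 2 (2 * m), Bal c →
      |PW (2 * m) m [Equiv.swap 0 1, Equiv.swap 0 1] F (cn c) - ν| ≤ 1 - #J * p := by
    intro c hc
    have h1 := key (fun A => 1 * F A + 1 * 1) (fun A => by have := (abs_le.1 (hF A)).1; linarith) c hc
    have h2 := key (fun A => (-1) * F A + 1 * 1)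
      (fun A => by have := (abs_le.1 (hF A)).2; linarith) c hc
    rw [P2 2 (2 * m) m [Equiv.swap 0 1, Equiv.swap 0 1] F (fun _ => (1 : ℝ)) 1 1 (cn c),
      P3 2 (2 * m) m (by omega)] at h1
    rw [P2 2 (2 * m) m [Equiv.swap 0 1, Equiv.swap 0 1] F (fun _ => (1 : ℝ)) (-1) 1 (cn c),
      P3 2 (2 * m) m (by omega)] at h2
    simp only [sum_add_distrib, one_mul, sum_const, nsmul_eq_mul, mul_one, neg_mul,
      sum_neg_distrib] at h1 h2
    rw [abs_le]
    constructor <;> nlinarith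
  have h1 := hall c hc
  have h2 := hall c' hc'
  have h3 := abs_sub_le (PW (2 * m) m [Equiv.swap 0 1, Equiv.swap 0 1] F (cn c)) ν
    (PW (2 * m) m [Equiv.swap 0 1, Equiv.swap 0 1] F (cn c'))
  rw [abs_sub_comm ν] at h3
  linarith

end Pool.Agent.L7h76.UC
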