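import Pool.Agent.L7h38.UC.Stm

set_option autoImplicit false

/-!
# Project UC, part EXC: exchange in one urn
-/

namespace Pool.Agent.L7h76.UC

open Finset Pool.Agent.L7h38.UC

theorem mf_sum {d n : ℕ} (f : Fin n → Fin d) (T : Finset (Fin n)) (j : Fin d) :
    mf f T j = ∑ q ∈ T, if f q = j then (1 : ℤ) else 0 := by
  simp [mf]

theorem mf_swap {d n : ℕ} (f : Fin n → Fin d) (T : Finset (Fin n)) {x y : Fin n} (hx : x ∈ T)
    (hy : y ∉ T) (j : Fin d) :
    mf f (insert y (T.erase x)) j =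
      mf f T j + ((if j = f y then 1 else 0) - (if j = f x then 1 else 0)) := by
  have h1 : y ∉ T.erase x := fun h => hy (mem_of_mem_erase h)
  have h2 := Finset.add_sum_erase T (fun q => if f q = j then (1 : ℤ) else 0) hx
  rw [mf_sum, mf_sum, sum_insert h1, ← h2]
  have e1 : (f y = j) = (j = f y) := propext eq_comm
  have e2 : (f x = j) = (j = f x) := propext eq_comm
  simp only [e1, e2]
  ring

/-- the elements of `T` of colour `j`, without `p` -/
def Bs {d n : ℕ} (f : Fin n → Fin d) (p : Fin n) (j : Fin d) (T : Finset (Fin n)) :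
    Finset (Fin n) := T.filter fun x => f x = j ∧ x ≠ p

theorem mem_Bs {d n : ℕ} {f : Fin n → Fin d} {p : Fin n} {j : Fin d} {T : Finset (Fin n)}
    {x : Fin n} : x ∈ Bs f p j T ↔ x ∈ T ∧ f x = j ∧ x ≠ p := by
  simp [Bs]

/-- double counting -/
theorem count {d n k : ℕ} (f : Fin n → Fin d) (p : Fin n) {a b : Fin d} (hab : a ≠ b)
    (u : Finset (Fin n) → ℝ)
    (hu : ∀ T x y, x ∈ T → y ∉ T → x ≠ p → y ≠ p → u (insert y (T.erase x)) = u T)
    (K : (Fin d → ℤ) → ℝ) :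
    ∑ T ∈ powersetCard k (univ : Finset (Fin n)), (#(Bs f p b T) : ℝ) * (#(Bs f p a Tᶜ) : ℝ) *
      (u T * K (fun j => mf f T j + ((if j = a then 1 else 0) - (if j = b then 1 else 0)))) =
    ∑ T ∈ powersetCard k (univ : Finset (Fin n)), (#(Bs f p b Tᶜ) : ℝ) * (#(Bs f p a T) : ℝ) *
      (u T * K (mf f T)) := by
  have h1 : ∀ (U V : Finset (Fin n) → Finset (Fin n)) (g : Finset (Fin n) → ℝ),
      ∑ T ∈ powersetCard k (univ : Finset (Fin n)), (#(U T) : ℝ) * (#(V T) : ℝ) * g T =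
      ∑ s ∈ (powersetCard k (univ : Finset (Fin n))).sigma (fun T => U T ×ˢ V T), g s.1 := by
    intro U V g
    rw [sum_sigma]
    refine sum_congr rfl fun T _ => ?_
    have e : ∑ s ∈ U T ×ˢ V T, g (⟨T, s⟩ : Sigma fun _ : Finset (Fin n) => Fin n × Fin n).1 =
        ∑ _s ∈ U T ×ˢ V T, g T := rfl
    rw [e, sum_const, card_product, nsmul_eq_mul]
    push_cast
    ring
  rw [h1, h1]
  refine sum_nbij' (fun s => ⟨insert s.2.2 (s.1.erase s.2.1), s.2⟩)
    (fun s => ⟨insert s.2.1 (s.1.erase s.2.2), s.2⟩) ?_ ?_ ?_ ?_ ?_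
  · rintro ⟨T, x, y⟩ h
    simp only [mem_sigma, mem_product, mem_Bs, mem_powersetCard_univ, mem_compl] at h ⊢
    obtain ⟨hT, ⟨hx, hfx, hxp⟩, hy, hfy, hyp⟩ := h
    have hxy : x ≠ y := fun h => hab (by rw [← hfy, ← h, hfx])
    refine ⟨?_, ⟨?_, hfx, hxp⟩, mem_insert_self _ _, hfy, hyp⟩
    · rw [card_insert_of_notMem (fun h => hy (mem_of_mem_erase h)), card_erase_of_mem hx]
      have : 0 < #T := card_pos.2 ⟨x, hx⟩
      omega
    · simp [hxy]
  · rintro ⟨T, x, y⟩ h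
    simp only [mem_sigma, mem_product, mem_Bs, mem_powersetCard_univ, mem_compl] at h ⊢
    obtain ⟨hT, ⟨hx, hfx, hxp⟩, hy, hfy, hyp⟩ := h
    have hxy : x ≠ y := fun h => hab (by rw [← hfy, ← h, hfx])
    refine ⟨?_, ⟨mem_insert_self _ _, hfx, hxp⟩, ?_, hfy, hyp⟩
    · rw [card_insert_of_notMem (fun h => hx (mem_of_mem_erase h)), card_erase_of_mem hy]
      have : 0 < #T := card_pos.2 ⟨y, hy⟩
      omega
    · simp [hxy.symm]
  · rintro ⟨T, x, y⟩ h
    simp only [mem_sigma, mem_product, mem_Bs, mem_powersetCard_univ, mem_compl] at h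
    obtain ⟨hT, ⟨hx, hfx, hxp⟩, hy, hfy, hyp⟩ := h
    have hxy : x ≠ y := fun h => hab (by rw [← hfy, ← h, hfx])
    have e : insert x ((insert y (T.erase x)).erase y) = T := by
      rw [erase_insert (fun h => hy (mem_of_mem_erase h)), insert_erase hx]
    simp only [e]
  · rintro ⟨T, x, y⟩ h
    simp only [mem_sigma, mem_product, mem_Bs, mem_powersetCard_univ, mem_compl] at h
    obtain ⟨hT, ⟨hx, hfx, hxp⟩, hy, hfy, hyp⟩ := h
    have e : insert y ((insert x (T.erase y)).erase x) = T := by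
      rw [erase_insert (fun h => hx (mem_of_mem_erase h)), insert_erase hy]
    simp only [e]
  · rintro ⟨T, x, y⟩ h
    simp only [mem_sigma, mem_product, mem_Bs, mem_powersetCard_univ, mem_compl] at h
    obtain ⟨hT, ⟨hx, hfx, hxp⟩, hy, hfy, hyp⟩ := h
    simp only
    rw [hu T x y hx hy hxp hyp]
    congr 2
    funext j
    rw [mf_swap f T hx hy j, hfx, hfy]

theorem card_Bs {d n : ℕ} (f : Fin n → Fin d) (p : Fin n) (j : Fin d) (T : Finset (Fin n)) :
    |(#(Bs f p j T) : ℝ) - (mf f T j : ℝ)| ≤ 1 := by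
  have h1 : #(Bs f p j T) ≤ #(T.filter fun x => f x = j) :=
    card_le_card (fun x hx => mem_filter.2 ⟨(mem_Bs.1 hx).1, (mem_Bs.1 hx).2.1⟩)
  have h2 : #(T.filter fun x => f x = j) ≤ #(Bs f p j T) + 1 := by
    refine (card_le_card (t := insert p (Bs f p j T)) fun x hx => ?_).trans (card_insert_le _ _)
    by_cases h : x = p
    · rw [h]; exact mem_insert_self _ _
    · exact mem_insert_of_mem (mem_Bs.2 ⟨(mem_filter.1 hx).1, (mem_filter.1 hx).2, h⟩)
  have h3 : (mf f T j : ℝ) = (#(T.filter fun x => f x = j) : ℝ) := by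
    simp [mf]
  rw [h3, abs_le]
  have h1' : (#(Bs f p j T) : ℝ) ≤ #(T.filter fun x => f x = j) := by exact_mod_cast h1
  have h2' : (#(T.filter fun x => f x = j) : ℝ) ≤ #(Bs f p j T) + 1 := by exact_mod_cast h2
  constructor <;> linarith

theorem card_Bs_le {d n : ℕ} (f : Fin n → Fin d) (p : Fin n) (j : Fin d) (T : Finset (Fin n)) :
    (#(Bs f p j T) : ℝ) ≤ n := by
  have h1 : #(Bs f p j T) ≤ n := by
    have := card_le_univ (Bs f p j T)
    rwa [Fintype.card_fin] at this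
  exact_mod_cast h1

theorem mf_compl {d n : ℕ} (f : Fin n → Fin d) (j : Fin d) (T : Finset (Fin n)) :
    (mf f Tᶜ j : ℝ) = (#{x | f x = j} : ℕ) - (mf f T j : ℝ) := by
  have h1 : mf f T j + mf f Tᶜ j = (#{x | f x = j} : ℕ) := by
    rw [mf_sum, mf_sum, sum_add_sum_compl]
    simp
  have h2 : ((mf f T j + mf f Tᶜ j : ℤ) : ℝ) = (((#{x | f x = j} : ℕ) : ℤ) : ℝ) := by rw [h1]
  push_cast at h2
  rw [eq_sub_iff_add_eq, add_comm]
  exact_mod_cast h2

/-- the product of two counts -/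
theorem prod_bound {N X Y x y : ℝ} (hN : 0 ≤ N) (hX : 0 ≤ X)
    (hXN : X ≤ N) (hy0 : 0 ≤ y) (hyN : y ≤ N)
    {δ ε : ℝ} (h1 : |x - X| ≤ δ) (h2 : |y - Y| ≤ ε) :
    |X * Y - x * y| ≤ N * (δ + ε) := by
  have e : X * Y - x * y = -(X * (y - Y)) - (x - X) * y := by ring
  rw [e]
  have h3 : |X * (y - Y)| ≤ N * ε := by
    rw [abs_mul, abs_of_nonneg hX]
    exact mul_le_mul hXN h2 (abs_nonneg _) hN
  have h4 : |(x - X) * y| ≤ δ * N := by
    rw [abs_mul, abs_of_nonneg hy0]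
    exact mul_le_mul h1 hyN hy0 ((abs_nonneg _).trans h1)
  calc |-(X * (y - Y)) - (x - X) * y| ≤ |X * (y - Y)| + |(x - X) * y| := by
        have := abs_sub (-(X * (y - Y))) ((x - X) * y)
        rwa [abs_neg] at this
    _ ≤ N * (δ + ε) := by linarith

theorem final_step {ι : Type} {P : Finset ι} {κ M : ℝ} {A B E u g h : ι → ℝ}
    (hA : ∀ T, |κ - A T| ≤ E T) (hB : ∀ T, |κ - B T| ≤ E T) (hE : ∑ T ∈ P, E T ≤ M)
    (hc : ∑ T ∈ P, A T * (u T * g T) = ∑ T ∈ P, B T * (u T * h T)) (hu : ∀ T, |u T| ≤ 1)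
    (hg : ∀ T, |g T| ≤ 1) (hh : ∀ T, |h T| ≤ 1) :
    |κ * ∑ T ∈ P, u T * (g T - h T)| ≤ 2 * M := by
  have hterm : ∀ (w : ι → ℝ) (g : ι → ℝ), (∀ T, |w T| ≤ E T) →
      (∀ T, |g T| ≤ 1) → |∑ T ∈ P, w T * (u T * g T)| ≤ M := by
    intro w g hw hg
    refine (abs_sum_le_sum_abs _ _).trans ((sum_le_sum fun T _ => ?_).trans hE)
    rw [abs_mul, abs_mul]
    have h1 : |u T| * |g T| ≤ 1 := mul_le_one₀ (hu T) (abs_nonneg _) (hg T)
    calc |w T| * (|u T| * |g T|) ≤ |w T| * 1 := mul_le_mul_of_nonneg_left h1 (abs_nonneg _)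
      _ ≤ E T := by rw [mul_one]; exact hw T
  have e1 : ∑ T ∈ P, (κ - A T) * (u T * g T) =
      κ * ∑ T ∈ P, u T * g T - ∑ T ∈ P, A T * (u T * g T) := by
    rw [mul_sum, ← sum_sub_distrib]
    exact sum_congr rfl fun T _ => by ring
  have e2 : ∑ T ∈ P, (κ - B T) * (u T * h T) =
      κ * ∑ T ∈ P, u T * h T - ∑ T ∈ P, B T * (u T * h T) := by
    rw [mul_sum, ← sum_sub_distrib]
    exact sum_congr rfl fun T _ => by ring
  have e3 : ∑ T ∈ P, u T * (g T - h T) = ∑ T ∈ P, u T * g T - ∑ T ∈ P, u T * h T := by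
    rw [← sum_sub_distrib]
    exact sum_congr rfl fun T _ => by ring
  have hid : κ * ∑ T ∈ P, u T * (g T - h T) =
      ∑ T ∈ P, (κ - A T) * (u T * g T) - ∑ T ∈ P, (κ - B T) * (u T * h T) := by
    rw [e1, e2, e3, hc]
    ring
  rw [hid]
  refine (abs_sub _ _).trans ?_
  have h1 := hterm _ g hA hg
  have h2 := hterm _ h hB hh
  linarith

theorem amgm {s x : ℝ} (hs : 0 < s) : |x| ≤ x ^ 2 / (2 * s) + s / 2 := by
  rw [div_add_div _ _ (by positivity) (by norm_num), le_div_iff₀ (by positivity)]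
  have h1 := sq_nonneg (|x| - s)
  have h2 : |x| ^ 2 = x ^ 2 := sq_abs x
  nlinarith

theorem main (h : S_HYP) {c0 : ℝ} (hc0 : 0 < c0) {d n k : ℕ} (f : Fin n → Fin d) {a b : Fin d}
    (p : Fin n) (K : (Fin d → ℤ) → ℝ) (hab : a ≠ b) (hK : ∀ m, |K m| ≤ 1)
    (hk1 : c0 * n ≤ k) (hk2 : (k : ℝ) ≤ (1 - c0) * n) (ha : c0 * n ≤ (#{x | f x = a} : ℕ))
    (hb : c0 * n ≤ (#{x | f x = b} : ℕ)) (u : Finset (Fin n) → ℝ) (hu1 : ∀ T, |u T| ≤ 1)
    (hu : ∀ T x y, x ∈ T → y ∉ T → x ≠ p → y ≠ p → u (insert y (T.erase x)) = u T) :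
    |av (powersetCard k univ) (fun T => u T *
      (K (fun j => mf f T j + ((if j = a then 1 else 0) - (if j = b then 1 else 0))) -
        K (mf f T)))| ≤ 8 / c0 ^ 4 / Real.sqrt n := by
  have hn : 1 ≤ n := Nat.one_le_iff_ne_zero.2 (fun h => by subst h; exact p.elim0)
  have hn' : (1 : ℝ) ≤ n := by exact_mod_cast hn
  have hn0 : (0 : ℝ) < n := by linarith
  have hkn : k ≤ n := by
    have : (k : ℝ) ≤ n := hk2.trans (by nlinarith)
    exact_mod_cast this
  set s : ℝ := Real.sqrt n with hs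
  have hs1 : 1 ≤ s := Real.one_le_sqrt.2 hn'
  have hs0 : 0 < s := by linarith
  have hss : s ^ 2 = n := Real.sq_sqrt hn0.le
  set l : ℝ := (k : ℝ) / n with hl
  have hl0 : c0 ≤ l := by rw [hl, le_div_iff₀ hn0]; exact hk1
  have hl1 : l ≤ 1 - c0 := by rw [hl, div_le_iff₀ hn0]; exact hk2
  set α : ℝ := ((#{x | f x = a} : ℕ) : ℝ) with hα
  set β : ℝ := ((#{x | f x = b} : ℕ) : ℝ) with hβ
  have cardle : ∀ j : Fin d, ((#{x | f x = j} : ℕ) : ℝ) ≤ n := by
    intro j
    have h1 : #{x | f x = j} ≤ n := by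
      have := card_le_univ (univ.filter fun x => f x = j)
      rwa [Fintype.card_fin] at this
    exact_mod_cast h1
  have hαn : α ≤ n := cardle a
  have hβn : β ≤ n := cardle b
  have hα0 : 0 < α := lt_of_lt_of_le (by positivity) ha
  have hβ0 : 0 < β := lt_of_lt_of_le (by positivity) hb
  set P := powersetCard k (univ : Finset (Fin n)) with hP
  have hPpos : 0 < (#P : ℝ) := by
    have : 0 < #P := by
      rw [hP, card_powersetCard, card_univ, Fintype.card_fin]
      exact Nat.choose_pos hkn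
    exact_mod_cast this
  set κ : ℝ := l * β * ((1 - l) * α) with hκ
  have hκ0 : c0 ^ 4 * n ^ 2 ≤ κ := by
    have h1 : c0 * (c0 * n) ≤ l * β := mul_le_mul hl0 hb (by positivity) (by linarith)
    have h2 : c0 * (c0 * n) ≤ (1 - l) * α := mul_le_mul (by linarith) ha (by positivity) (by linarith)
    calc c0 ^ 4 * n ^ 2 = (c0 * (c0 * n)) * (c0 * (c0 * n)) := by ring
      _ ≤ (l * β) * ((1 - l) * α) := mul_le_mul h1 h2 (by positivity) (by nlinarith)
  -- deviations
  let xa : Finset (Fin n) → ℝ := fun T => (mf f T a : ℝ) - l * α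
  let xb : Finset (Fin n) → ℝ := fun T => (mf f T b : ℝ) - l * β
  have hva : ∑ T ∈ P, xa T ^ 2 ≤ n * #P := by
    have := (h d n k hn hkn f a).2.1
    rw [av, div_le_iff₀ hPpos] at this
    exact this
  have hvb : ∑ T ∈ P, xb T ^ 2 ≤ n * #P := by
    have := (h d n k hn hkn f b).2.1
    rw [av, div_le_iff₀ hPpos] at this
    exact this
  let E : Finset (Fin n) → ℝ := fun T =>
    n * ((xa T ^ 2 / (2 * s) + s / 2 + 1) + (xb T ^ 2 / (2 * s) + s / 2 + 1))
  have hE : ∑ T ∈ P, E T ≤ 4 * n * s * #P := by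
    have h1 : ∑ T ∈ P, E T = n * ((∑ T ∈ P, xa T ^ 2) / (2 * s) + (∑ T ∈ P, xb T ^ 2) / (2 * s) +
        #P * (s + 2)) := by
      simp only [E]
      rw [← mul_sum, sum_div, sum_div]
      congr 1
      simp only [sum_add_distrib, sum_const, nsmul_eq_mul]
      ring
    rw [h1]
    have h2 : (∑ T ∈ P, xa T ^ 2) / (2 * s) ≤ s / 2 * #P := by
      rw [div_le_iff₀ (by positivity)]
      refine hva.trans (le_of_eq ?_)
      rw [← hss]; ring
    have h3 : (∑ T ∈ P, xb T ^ 2) / (2 * s) ≤ s / 2 * #P := by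
      rw [div_le_iff₀ (by positivity)]
      refine hvb.trans (le_of_eq ?_)
      rw [← hss]; ring
    have h4 : s / 2 * #P + s / 2 * #P + #P * (s + 2) ≤ 4 * s * #P := by
      nlinarith
    calc n * ((∑ T ∈ P, xa T ^ 2) / (2 * s) + (∑ T ∈ P, xb T ^ 2) / (2 * s) + #P * (s + 2))
        ≤ n * (s / 2 * #P + s / 2 * #P + #P * (s + 2)) :=
          mul_le_mul_of_nonneg_left (by linarith) hn0.le
      _ ≤ n * (4 * s * #P) := mul_le_mul_of_nonneg_left h4 hn0.le
      _ = 4 * n * s * #P := by ring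
  have hlin : ∀ T, |κ - (#(Bs f p b T) : ℝ) * (#(Bs f p a Tᶜ) : ℝ)| ≤ E T := by
    intro T
    have h1 : |(#(Bs f p b T) : ℝ) - l * β| ≤ xb T ^ 2 / (2 * s) + s / 2 + 1 := by
      have h2 := card_Bs f p b T
      have h3 := amgm (x := xb T) hs0
      have h4 : (#(Bs f p b T) : ℝ) - l * β = ((#(Bs f p b T) : ℝ) - (mf f T b : ℝ)) + xb T := by
        simp only [xb]; ring
      rw [h4]
      exact (abs_add_le _ _).trans (by linarith)
    have h5 : |(#(Bs f p a Tᶜ) : ℝ) - (1 - l) * α| ≤ xa T ^ 2 / (2 * s) + s / 2 + 1 := by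
      have h2 := card_Bs f p a Tᶜ
      rw [mf_compl] at h2
      have h3 := amgm (x := xa T) hs0
      have h4 : (#(Bs f p a Tᶜ) : ℝ) - (1 - l) * α =
          ((#(Bs f p a Tᶜ) : ℝ) - (α - (mf f T a : ℝ))) - xa T := by
        simp only [xa]; ring
      rw [h4]
      exact (abs_sub _ _).trans (by linarith)
    have h6 := prod_bound hn0.le (X := l * β) (by nlinarith)
      (by nlinarith) (Nat.cast_nonneg _) (card_Bs_le f p a Tᶜ) h1 h5
    refine h6.trans (le_of_eq ?_)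
    simp only [E]; ring
  have hlin2 : ∀ T, |κ - (#(Bs f p b Tᶜ) : ℝ) * (#(Bs f p a T) : ℝ)| ≤ E T := by
    intro T
    have h1 : |(#(Bs f p a T) : ℝ) - l * α| ≤ xa T ^ 2 / (2 * s) + s / 2 + 1 := by
      have h2 := card_Bs f p a T
      have h3 := amgm (x := xa T) hs0
      have h4 : (#(Bs f p a T) : ℝ) - l * α = ((#(Bs f p a T) : ℝ) - (mf f T a : ℝ)) + xa T := by
        simp only [xa]; ring
      rw [h4]
      exact (abs_add_le _ _).trans (by linarith)
    have h5 : |(#(Bs f p b Tᶜ) : ℝ) - (1 - l) * β| ≤ xb T ^ 2 / (2 * s) + s / 2 + 1 := by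
      have h2 := card_Bs f p b Tᶜ
      rw [mf_compl] at h2
      have h3 := amgm (x := xb T) hs0
      have h4 : (#(Bs f p b Tᶜ) : ℝ) - (1 - l) * β =
          ((#(Bs f p b Tᶜ) : ℝ) - (β - (mf f T b : ℝ))) - xb T := by
        simp only [xb]; ring
      rw [h4]
      exact (abs_sub _ _).trans (by linarith)
    have h6 := prod_bound hn0.le (X := l * α) (by nlinarith)
      (by nlinarith) (Nat.cast_nonneg _) (card_Bs_le f p b Tᶜ) h1 h5
    have e : κ - (#(Bs f p b Tᶜ) : ℝ) * (#(Bs f p a T) : ℝ) =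
        l * α * ((1 - l) * β) - (#(Bs f p a T) : ℝ) * (#(Bs f p b Tᶜ) : ℝ) := by
      rw [hκ]; ring
    rw [e]
    exact h6
  have hfin := final_step (P := P) (u := u) (E := E)
    (g := fun T => K (fun j => mf f T j + ((if j = a then 1 else 0) - (if j = b then 1 else 0))))
    (h := fun T => K (mf f T)) hlin hlin2 hE
    (count (k := k) f p hab u hu K) hu1 (fun T => hK _) (fun T => hK _)
  rw [av, abs_div, abs_of_pos hPpos, div_le_iff₀ hPpos]
  have hκpos : 0 < κ := lt_of_lt_of_le (by positivity) hκ0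
  rw [abs_mul, abs_of_pos hκpos] at hfin
  refine (le_div_iff₀' hκpos |>.2 hfin).trans ?_
  rw [div_le_iff₀ hκpos]
  calc 2 * (4 * n * s * #P) = 8 / c0 ^ 4 / s * #P * (c0 ^ 4 * n ^ 2) := by
        rw [← hss]; field_simp; norm_num
    _ ≤ 8 / c0 ^ 4 / s * #P * κ := mul_le_mul_of_nonneg_left hκ0 (by positivity)

theorem s_EXC (h : S_HYP) : S_EXC := by
  intro c0 hc0
  refine ⟨8 / c0 ^ 4, by positivity, fun d n k f a b p K hab hK hk1 hk2 ha hb => ⟨?_, ?_⟩⟩
  · have := main h hc0 f p K hab hK hk1 hk2 ha hb (fun T => if p ∈ T then 1 else 0)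
      (fun T => by split_ifs <;> simp) (fun T x y hx hy hxp hyp => by
        have : p ∈ insert y (T.erase x) ↔ p ∈ T := by
          simp [mem_insert, mem_erase, hyp.symm, hxp.symm]
        simp only [this])
    convert this using 4 with T
    simp only [ite_mul, one_mul, zero_mul]
  · have := main h hc0 f p K hab hK hk1 hk2 ha hb (fun T => if p ∈ T then 0 else 1)
      (fun T => by split_ifs <;> simp) (fun T x y hx hy hxp hyp => by
        have : p ∈ insert y (T.erase x) ↔ p ∈ T := by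
          simp [mem_insert, mem_erase, hyp.symm, hxp.symm]
        simp only [this])
    convert this using 4 with T
    simp only [ite_mul, one_mul, zero_mul]

end Pool.Agent.L7h76.UC
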