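import Pool.Agent.L7h38.UC.Stm2
import Pool.Agent.L7h38.UC.Ew
import Pool.Agent.L7h96.UC.Finb

set_option autoImplicit false

/-!
# Project UC, part FINA: cutoff
-/

namespace Pool.Agent.L7h76.UC

open Finset Filter Topology Pool.Agent.L7h38.UC

theorem nf2_Pi0_le (d : ℕ) (hd : 1 ≤ d) : nf2 (Pi0 d) ≤ d := by
  have hd' : (1 : ℝ) ≤ d := by exact_mod_cast hd
  have h1 : ∀ i : Fin d, ∑ j, Pi0 d i j ^ 2 = 1 - 1 / d := by
    intro i
    have h2 : ∀ j, Pi0 d i j ^ 2 = (if i = j then 1 - 2 / (d : ℝ) else 0) + 1 / (d : ℝ) ^ 2 := by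
      intro j
      unfold Pi0
      split_ifs
      · field_simp
        ring
      · field_simp
        ring
    simp only [h2, Finset.sum_add_distrib, Finset.sum_ite_eq, Finset.mem_univ, if_true,
      Finset.sum_const, Finset.card_univ, Fintype.card_fin, nsmul_eq_mul]
    field_simp
    ring
  unfold nf2
  simp only [h1, Finset.sum_const, Finset.card_univ, Fintype.card_fin, nsmul_eq_mul]
  have h3 : (d : ℝ) * (1 - 1 / d) = d - 1 := by
    field_simp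
  rw [h3]
  linarith

theorem fw_le_sqrt (hF : S_FWB) {d : ℕ} (hd : 1 ≤ d) {l : ℝ} (h0 : 0 ≤ l) (h1 : l ≤ 1)
    (w : List (Equiv.Perm (Fin d))) : fw l w ≤ Real.sqrt d := by
  unfold fw
  exact Real.sqrt_le_sqrt (((hF d hd).1 l h0 h1 w (Pi0 d)).trans (nf2_Pi0_le d hd))

open Classical in
theorem ew_small (hF : S_FWB) {d : ℕ} (hd : 1 ≤ d) {μ : Equiv.Perm (Fin d) → ℝ} (hμ : Pr μ) {l : ℝ}
    (h0 : 0 ≤ l) (h1 : l ≤ 1) {N M : ℕ} (hNM : N ≤ M) (a : ℝ) :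
    EW μ N (fun w => if fw l w < a then 1 else 0) ≤
      EW μ M (fun w => if fw l w < a * Real.sqrt d then 1 else 0) := by
  obtain ⟨P, rfl⟩ := Nat.exists_eq_add_of_le hNM
  rw [EW_app]
  refine EW_mono hμ.1 N _ _ fun v _ => ?_
  split_ifs with h
  · have h2 : EW μ P (fun _ => (1 : ℝ)) ≤
        EW μ P (fun w => if fw l (v ++ w) < a * Real.sqrt d then 1 else 0) := by
      refine EW_mono hμ.1 P _ _ fun w _ => ?_
      rw [if_pos]
      have hd0 : 0 < Real.sqrt d := Real.sqrt_pos.2 (by exact_mod_cast hd)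
      calc fw l (v ++ w) ≤ fw l v * fw l w := (hF d hd).2.1 l h0 h1 v w
        _ ≤ fw l v * Real.sqrt d :=
          mul_le_mul_of_nonneg_left (fw_le_sqrt hF hd h0 h1 w) (Real.sqrt_nonneg _)
        _ < a * Real.sqrt d := mul_lt_mul_of_pos_right h hd0
    rwa [EW_const hμ] at h2
  · have h2 : EW μ P (fun _ => (0 : ℝ)) ≤
        EW μ P (fun w => if fw l (v ++ w) < a * Real.sqrt d then 1 else 0) := by
      refine EW_mono hμ.1 P _ _ fun w _ => ?_
      split_ifs <;> norm_num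
    rwa [EW_const hμ] at h2

section

variable {d : ℕ} {μ : Equiv.Perm (Fin d) → ℝ} {l θ : ℝ}

theorem log_top : Tendsto (fun n : ℕ => Real.log (n : ℝ)) atTop atTop :=
  Real.tendsto_log_atTop.comp tendsto_natCast_atTop_atTop

theorem T_top (hθ : 0 < θ) : Tendsto (fun n : ℕ => Real.log (n : ℝ) / (2 * θ)) atTop atTop :=
  log_top.atTop_div_const (by positivity)

/-- the bounds for `k n` -/
theorem k_bounds (hl0 : 0 < l) (hl1 : l < 1) {C0 : ℝ} {k : ℕ → ℕ}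
    (hk : ∀ n : ℕ, |(k n : ℝ) - l * n| ≤ C0) :
    ∀ᶠ n : ℕ in atTop, min l (1 - l) / 2 * n ≤ k n ∧ (k n : ℝ) ≤ (1 - min l (1 - l) / 2) * n := by
  have hm : 0 < min l (1 - l) := lt_min hl0 (by linarith)
  have e1 : ∀ᶠ n : ℕ in atTop, C0 ≤ min l (1 - l) / 2 * (n : ℝ) :=
    (tendsto_natCast_atTop_atTop.const_mul_atTop (by linarith)).eventually_ge_atTop _
  filter_upwards [e1] with n hn
  have h1 := abs_le.1 (hk n)
  have h2 : min l (1 - l) * n ≤ l * n :=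
    mul_le_mul_of_nonneg_right (min_le_left _ _) (Nat.cast_nonneg n)
  have h3 : min l (1 - l) * n ≤ (1 - l) * n :=
    mul_le_mul_of_nonneg_right (min_le_right _ _) (Nat.cast_nonneg n)
  constructor
  · linarith [h1.1]
  · linarith [h1.2]

/-- upper bound -/
theorem fina_up (hUPS : S_UPS) (hCU : S_CTU) (hPT : S_PTL) (hd : 2 ≤ d) (hμ : Pr μ) (hI : Irr μ)
    (hl0 : 0 < l) (hl1 : l < 1) (hθ : 0 < θ)
    (hup : ∀ ε : ℝ, 0 < ε →
      Tendsto (fun N : ℕ => EW μ N (fun w => if Real.exp (-(θ - ε) * N) < fw l w then 1 else 0))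
        atTop (𝓝 0)) {C0 : ℝ} {k : ℕ → ℕ} (hk : ∀ n : ℕ, |(k n : ℝ) - l * n| ≤ C0)
    {π : ∀ n : ℕ, St d n → ℝ} (hπ : ∀ n, Stationary μ (k n) (π n)) {ε δ : ℝ} (hε : 0 < ε)
    (hδ : 0 < δ) : ∀ᶠ n : ℕ in atTop, 0 ≤ (1 + δ) * (Real.log n / (2 * θ)) ∧
      dn μ (k n) (π n) ((1 + δ) * (Real.log n / (2 * θ))) ≤ ε := by
  obtain ⟨a, ha⟩ : ∃ a, a = min (δ / 4) 1 := ⟨_, rfl⟩
  have ha0 : 0 < a := by rw [ha]; exact lt_min (by positivity) one_pos
  have ha1 : a ≤ 1 := by rw [ha]; exact min_le_right _ _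
  have ha2 : a ≤ δ / 4 := by rw [ha]; exact min_le_left _ _
  obtain ⟨X, hX, hP⟩ := hPT a (ε / 2) ha0 (by linarith)
  have hU := hUPS d μ l θ hd hμ hI hl0 hl1 hθ hup C0 k hk a ε ha0 hε
  have e1 : ∀ᶠ n : ℕ in atTop, max X (8 / δ) ≤ Real.log n / (2 * θ) :=
    (T_top hθ).eventually_ge_atTop _
  filter_upwards [hU, e1, k_bounds hl0 hl1 hk, eventually_ge_atTop 1] with n hn h1 hkn h3
  have hX1 : X ≤ Real.log n / (2 * θ) := (le_max_left _ _).trans h1
  have hX2 : 8 / δ ≤ Real.log n / (2 * θ) := (le_max_right _ _).trans h1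
  have hn1 : (1 : ℝ) ≤ n := by exact_mod_cast h3
  have hm : 0 < min l (1 - l) := lt_min hl0 (by linarith)
  have hkn' : k n ≤ n := by
    have : (k n : ℝ) ≤ n := hkn.2.trans (by nlinarith)
    exact_mod_cast this
  have hT8 : 8 ≤ δ * (Real.log n / (2 * θ)) := by
    rw [div_le_iff₀ hδ] at hX2
    linarith
  obtain ⟨T, hT⟩ : ∃ T, T = Real.log n / (2 * θ) := ⟨_, rfl⟩
  rw [← hT] at hX1 hT8 ⊢
  have hT0 : 0 < T := lt_of_lt_of_le hX hX1
  have g0 : 0 ≤ (1 + δ) * T := by positivity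
  refine ⟨g0, ?_⟩
  obtain ⟨N, hN⟩ : ∃ N, N = ⌈(1 + a) * T⌉₊ := ⟨_, rfl⟩
  have hN1 : (1 + a) * T ≤ N := by rw [hN]; exact Nat.le_ceil _
  have hN2 : (N : ℝ) ≤ (1 + a) * T + 1 := by
    rw [hN]; exact (Nat.ceil_lt_add_one (by positivity)).le
  have hmix := hn N (by
    rw [mul_div_assoc, ← hT]
    exact hN1)
  have g1 := hCU d n (k n) μ hμ hkn' N _ hmix (π n) (hπ n) _ g0
  have g2 := (hP ((1 + a) * T + 1) (by nlinarith) N).1 hN2 ((1 + δ) * T) (by
    have e2 : (1 + a) * ((1 + a) * T + 1) = T + (2 * a + a ^ 2) * T + (1 + a) := by ring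
    have e3 : 2 * a + a ^ 2 ≤ 3 * (δ / 4) := by nlinarith
    have e4 := mul_le_mul_of_nonneg_right e3 hT0.le
    rw [e2]
    nlinarith)
  linarith

/-- the hypothesis of LOW -/
theorem ew_low (hF : S_FWB) (hd : 2 ≤ d) (hμ : Pr μ) (hl0 : 0 < l) (hl1 : l < 1) (hθ : 0 < θ)
    (hlow : ∀ ε : ℝ, 0 < ε →
      Tendsto (fun N : ℕ => EW μ N (fun w => if fw l w < Real.exp (-(θ + ε) * N) then 1 else 0))
        atTop (𝓝 0)) {C0 : ℝ} {k : ℕ → ℕ} (hk : ∀ n : ℕ, |(k n : ℝ) - l * n| ≤ C0)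
    {e η : ℝ} (he : 0 < e) (he1 : e < 1) (hη : 0 < η) :
    ∀ᶠ n : ℕ in atTop, ∀ N : ℕ, N ≤ ⌊(1 - e) * (Real.log n / (2 * θ))⌋₊ →
      EW μ N (fun w => if fw ((k n : ℝ) / n) w < (n : ℝ) ^ (-(1 / 2 : ℝ) + e / 8) then 1 else 0) ≤
        η := by
  classical
  have hC0 : 0 ≤ C0 := (abs_nonneg _).trans (hk 0)
  have hd1 : 1 ≤ d := by omega
  have hdr : (2 : ℝ) ≤ d := by exact_mod_cast hd
  have hM : Tendsto (fun n : ℕ => ⌊(1 - e) * (Real.log n / (2 * θ))⌋₊) atTop atTop :=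
    tendsto_nat_floor_atTop.comp ((T_top hθ).const_mul_atTop (by linarith))
  have h1 : ∀ᶠ n : ℕ in atTop, EW μ ⌊(1 - e) * (Real.log n / (2 * θ))⌋₊
      (fun w => if fw l w < Real.exp (-(θ + θ * e / 2) *
        (⌊(1 - e) * (Real.log n / (2 * θ))⌋₊ : ℕ)) then 1 else 0) < η :=
    (tendsto_order.1 ((hlow (θ * e / 2) (by positivity)).comp hM)).2 η hη
  have h2 : ∀ᶠ n : ℕ in atTop, ‖Real.log n‖ ≤ (θ / (2 * (d * C0 + 1))) * ‖(n : ℝ) ^ (1 / 2 : ℝ)‖ :=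
    tendsto_natCast_atTop_atTop.eventually
      ((isLittleO_log_rpow_atTop (by norm_num : (0 : ℝ) < 1 / 2)).def (by positivity))
  have h3 : ∀ᶠ n : ℕ in atTop, Real.log (2 * Real.sqrt d) / (e / 8) ≤ Real.log n :=
    log_top.eventually_ge_atTop _
  filter_upwards [h1, h2, h3, k_bounds hl0 hl1 hk, eventually_ge_atTop 1] with n g1 g2 g3 hkn hn N hN
  have hn1 : (1 : ℝ) ≤ n := by exact_mod_cast hn
  have hn0 : (0 : ℝ) < n := by linarith
  have hL0 : 0 ≤ Real.log n := Real.log_nonneg hn1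
  have hm : 0 < min l (1 - l) := lt_min hl0 (by linarith)
  have hkn1 : (k n : ℝ) ≤ n := hkn.2.trans (by nlinarith)
  have hp0 : 0 ≤ (k n : ℝ) / n := by positivity
  have hp1 : (k n : ℝ) / n ≤ 1 := by rw [div_le_one hn0]; exact hkn1
  have hkl : |(k n : ℝ) / n - l| ≤ C0 / n := by
    have : (k n : ℝ) / n - l = ((k n : ℝ) - l * n) / n := by field_simp
    rw [this, abs_div, abs_of_pos hn0]
    exact div_le_div_of_nonneg_right (hk n) hn0.le
  obtain ⟨M, hMd⟩ : ∃ M, M = ⌊(1 - e) * (Real.log n / (2 * θ))⌋₊ := ⟨_, rfl⟩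
  rw [← hMd] at g1 hN
  have hM1 : (M : ℝ) ≤ (1 - e) * (Real.log n / (2 * θ)) := by
    rw [hMd]; exact Nat.floor_le (mul_nonneg (by linarith) (by positivity))
  have hN1 : (N : ℝ) ≤ Real.log n / (2 * θ) := by
    have h4 : (N : ℝ) ≤ M := by exact_mod_cast hN
    have h5 : 0 ≤ e * (Real.log n / (2 * θ)) := by positivity
    linarith
  obtain ⟨a, ha⟩ : ∃ a, a = (n : ℝ) ^ (-(1 / 2 : ℝ) + e / 8) := ⟨_, rfl⟩
  rw [← ha]
  have ha0 : 0 < a := by rw [ha]; exact Real.rpow_pos_of_pos hn0 _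
  -- the error
  have herr : 2 * d * N * (C0 / n) ≤ a := by
    rw [Real.norm_of_nonneg hL0, Real.norm_of_nonneg (by positivity)] at g2
    have h4 : (n : ℝ) ^ (1 / 2 : ℝ) = n * (n : ℝ) ^ (-(1 / 2 : ℝ)) := by
      nth_rewrite 2 [← Real.rpow_one (n : ℝ)]
      rw [← Real.rpow_add hn0]
      norm_num
    have h5 : (n : ℝ) ^ (-(1 / 2 : ℝ)) ≤ a := by
      rw [ha]
      exact Real.rpow_le_rpow_of_exponent_le hn1 (by linarith)
    have h6 : (0 : ℝ) ≤ (n : ℝ) ^ (-(1 / 2 : ℝ)) := by positivity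
    have h7 : 2 * d * N * (C0 / n) ≤ 2 * d * (Real.log n / (2 * θ)) * (C0 / n) := by
      gcongr
    refine h7.trans (le_trans ?_ h5)
    have h8 : 2 * d * (Real.log n / (2 * θ)) * (C0 / n) = (d * C0) / θ / n * Real.log n := by
      field_simp
    rw [h8]
    calc (d * C0) / θ / n * Real.log n
        ≤ (d * C0) / θ / n * (θ / (2 * (d * C0 + 1)) * (n : ℝ) ^ (1 / 2 : ℝ)) :=
          mul_le_mul_of_nonneg_left g2 (by positivity)
      _ = ((d * C0) / (2 * (d * C0 + 1))) * (n : ℝ) ^ (-(1 / 2 : ℝ)) := by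
          rw [h4]; field_simp
      _ ≤ 1 * (n : ℝ) ^ (-(1 / 2 : ℝ)) := by
          refine mul_le_mul_of_nonneg_right ?_ h6
          rw [div_le_one (by positivity)]
          have : 0 ≤ d * C0 := by positivity
          linarith
      _ = (n : ℝ) ^ (-(1 / 2 : ℝ)) := one_mul _
  -- the size of the exponential
  have hexp : 2 * a * Real.sqrt d ≤ Real.exp (-(θ + θ * e / 2) * (M : ℕ)) := by
    have hsd : 0 < Real.sqrt d := Real.sqrt_pos.2 (by linarith)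
    have h4 : 2 * a * Real.sqrt d =
        Real.exp (Real.log (2 * Real.sqrt d) + (-(1 / 2 : ℝ) + e / 8) * Real.log n) := by
      rw [Real.exp_add, Real.exp_log (by positivity), ha, Real.rpow_def_of_pos hn0]
      ring_nf
    rw [h4, Real.exp_le_exp]
    have h5 : Real.log (2 * Real.sqrt d) ≤ e / 8 * Real.log n := by
      rw [div_le_iff₀ (by positivity)] at g3
      linarith
    have h6 : (θ + θ * e / 2) * M ≤ (θ + θ * e / 2) * ((1 - e) * (Real.log n / (2 * θ))) :=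
      mul_le_mul_of_nonneg_left hM1 (by positivity)
    have h7 : (θ + θ * e / 2) * ((1 - e) * (Real.log n / (2 * θ))) =
        (1 + e / 2) * (1 - e) * Real.log n / 2 := by
      field_simp
    rw [h7] at h6
    have h8 : (1 + e / 2) * (1 - e) * Real.log n / 2 ≤ (1 / 2 - e / 4) * Real.log n := by
      have : 0 ≤ e ^ 2 / 4 * Real.log n := by positivity
      nlinarith
    linarith
  -- the chain of inequalities
  have s1 : EW μ N (fun w => if fw ((k n : ℝ) / n) w < a then (1 : ℝ) else 0) ≤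
      EW μ N (fun w => if fw l w < 2 * a then 1 else 0) := by
    refine EW_mono hμ.1 N _ _ fun w hw => ?_
    split_ifs with h4 h5
    · exact le_rfl
    · exfalso
      apply h5
      have h6 := (hF d hd1).2.2.2.2 l ((k n : ℝ) / n) hl0.le hl1.le hp0 hp1 w
      rw [hw, abs_sub_comm l] at h6
      have h7 : 2 * d * (N : ℝ) * |(k n : ℝ) / n - l| ≤ 2 * d * N * (C0 / n) :=
        mul_le_mul_of_nonneg_left hkl (by positivity)
      have h8 := (abs_le.1 (h6.trans (h7.trans herr))).2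
      linarith
    · norm_num
    · exact le_rfl
  have s2 := ew_small hF hd1 hμ hl0.le hl1.le hN (2 * a)
  have s3 : EW μ M (fun w => if fw l w < 2 * a * Real.sqrt d then (1 : ℝ) else 0) ≤
      EW μ M (fun w => if fw l w < Real.exp (-(θ + θ * e / 2) * (M : ℕ)) then 1 else 0) := by
    refine EW_mono hμ.1 M _ _ fun w _ => ?_
    split_ifs with h4 h5
    · exact le_rfl
    · exact absurd (h4.trans_le hexp) h5
    · norm_num
    · exact le_rfl
  exact s1.trans (s2.trans (s3.trans g1.le))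

/-- lower bound -/
theorem fina_lo (hL : S_LOW) (hTY : S_TYP) (hCL : S_CTL) (hPT : S_PTL) (hF : S_FWB) (hd : 2 ≤ d)
    (hμ : Pr μ) (hI : Irr μ) (hl0 : 0 < l) (hl1 : l < 1) (hθ : 0 < θ)
    (hlow : ∀ ε : ℝ, 0 < ε →
      Tendsto (fun N : ℕ => EW μ N (fun w => if fw l w < Real.exp (-(θ + ε) * N) then 1 else 0))
        atTop (𝓝 0)) {C0 : ℝ} {k : ℕ → ℕ} (hk : ∀ n : ℕ, |(k n : ℝ) - l * n| ≤ C0)
    {π : ∀ n : ℕ, St d n → ℝ} (hπ : ∀ n, Stationary μ (k n) (π n)) {ε δ : ℝ}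
    (hε1 : ε < 1) (hδ : 0 < δ) (hδ1 : δ < 1) :
    ∀ᶠ n : ℕ in atTop, ∀ t : ℝ, 0 ≤ t → dn μ (k n) (π n) t ≤ ε →
      (1 - δ) * (Real.log n / (2 * θ)) ≤ t := by
  classical
  obtain ⟨e, he⟩ : ∃ e : ℝ, e = δ / 4 := ⟨_, rfl⟩
  have he0 : 0 < e := by rw [he]; positivity
  have he1 : e < 1 := by rw [he]; linarith
  obtain ⟨η, hη⟩ : ∃ η : ℝ, η = (1 - ε) / 8 := ⟨_, rfl⟩
  have hηp : 0 < η := by rw [hη]; linarith
  have hm : 0 < min l (1 - l) := lt_min hl0 (by linarith)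
  obtain ⟨K', hTY'⟩ := hTY d μ hd hμ hI (min l (1 - l) / 2) (by positivity) (e / 8) (by positivity)
    η hηp
  have hLO := hL d μ hd hμ (e / 8) (by positivity) η hηp (1 / (2 * θ))
  obtain ⟨X, hX, hP⟩ := hPT e η he0 hηp
  have e1 : ∀ᶠ n : ℕ in atTop, max (2 * (X + 2)) (4 / δ) ≤ Real.log n / (2 * θ) :=
    (T_top hθ).eventually_ge_atTop _
  filter_upwards [k_bounds hl0 hl1 hk, hTY', hLO, e1, ew_low hF hd hμ hl0 hl1 hθ hlow hk he0 he1 hηp,
    eventually_ge_atTop 1] with n hkn hTYn hLOn h1 hEWn h3 t ht hdt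
  have hX1 : 2 * (X + 2) ≤ Real.log n / (2 * θ) := (le_max_left _ _).trans h1
  have hX2 : 4 / δ ≤ Real.log n / (2 * θ) := (le_max_right _ _).trans h1
  have hn : (1 : ℝ) ≤ n := by exact_mod_cast h3
  have hn0 : (0 : ℝ) < n := by linarith
  have hkn' : k n ≤ n := by
    have : (k n : ℝ) ≤ n := hkn.2.trans (by nlinarith)
    exact_mod_cast this
  have hT4 : 4 ≤ δ * (Real.log n / (2 * θ)) := by
    rw [div_le_iff₀ hδ] at hX2
    linarith
  obtain ⟨M, hM'⟩ : ∃ M, M = ⌊(1 - e) * (Real.log n / (2 * θ))⌋₊ := ⟨_, rfl⟩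
  rw [← hM'] at hEWn
  -- small times
  have hsmall : ∀ N : ℕ, N ≤ M → PN μ n (k n) N
      (fun A => open Classical in
        if nf2 (fun i j => rl A i j - n / d) ≤ (n : ℝ) ^ (1 + e / 8) then 1 else 0)
      (cn (fun i _ => i : Cf d n)) ≤ 2 * η := by
    intro N hN
    rw [Pool.Agent.L7h96.UC.cn_start]
    refine hLOn (k n) hkn' N ?_ (hEWn N hN)
    have h4 : (N : ℝ) ≤ M := by exact_mod_cast hN
    have h5 : (M : ℝ) ≤ (1 - e) * (Real.log n / (2 * θ)) := by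
      rw [hM']
      exact Nat.floor_le (mul_nonneg (by linarith)
        (div_nonneg (Real.log_nonneg hn) (by positivity)))
    have h6 : 0 ≤ e * (Real.log n / (2 * θ)) :=
      mul_nonneg he0.le (div_nonneg (Real.log_nonneg hn) (by positivity))
    have h7 : 1 / (2 * θ) * Real.log n = Real.log n / (2 * θ) := by ring
    rw [h7]
    linarith
  have hlarge := hTYn (k n) hkn.1 hkn.2 ⌈K' * Real.log n⌉₊ (Nat.le_ceil _)
  obtain ⟨T, hT⟩ : ∃ T, T = Real.log n / (2 * θ) := ⟨_, rfl⟩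
  rw [← hT] at hX1 hT4 hM' ⊢
  have hT0 : 0 < T := by linarith
  by_contra hlt
  push Not at hlt
  have hM1 : (M : ℝ) ≤ (1 - e) * T := by
    rw [hM']; exact Nat.floor_le (mul_nonneg (by linarith) hT0.le)
  have hM2 : (1 - e) * T - 1 ≤ M := by
    rw [hM']
    have := Nat.lt_floor_add_one ((1 - e) * T)
    linarith
  have he4 : e ≤ 1 / 4 := by rw [he]; linarith
  have g1 := (hP ((1 - e) * T - 1) (by nlinarith) M).2 hM2 t ht (by
    have e2 : (1 - e) * ((1 - e) * T - 1) = T - 2 * e * T + e ^ 2 * T - (1 - e) := by ring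
    have e3 : 0 ≤ e ^ 2 * T := by positivity
    have e4 : 2 * e * T = δ * T / 2 := by rw [he]; ring
    rw [e2, e4]
    nlinarith)
  have g2 := hCL d n (k n) μ hμ hkn' M ⌈K' * Real.log n⌉₊ (2 * η) η
    (fun A => open Classical in
        if nf2 (fun i j => rl A i j - n / d) ≤ (n : ℝ) ^ (1 + e / 8) then 1 else 0)
    (fun i _ => i : Cf d n) Pool.Agent.L7h96.UC.bal_start (fun A => by
      split_ifs <;> norm_num) hsmall (fun c' hc' => hlarge c' hc') (π n) (hπ n) t ht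
  linarith

end

theorem s_FINA (hUPS : S_UPS) (hL : S_LOW) (hTY : S_TYP) (hLY : S_LYA) (hF : S_FWB)
    (hCU : S_CTU) (hCL : S_CTL) (hPT : S_PTL) : S_FINA := by
  intro d μ l hd hμ hI hl0 hl1 hinv
  obtain ⟨θ, hθ, hexpo, hdev⟩ := hLY d μ l hd hμ hI hl0 hl1 hinv
  refine ⟨θ, hθ, hexpo, fun C0 k hk π hπ ε hε hε1 => ?_⟩
  have key : ∀ δ : ℝ, 0 < δ → δ < 1 → ∀ᶠ n : ℕ in atTop,
      (1 - δ) * (Real.log n / (2 * θ)) ≤ tmix μ (k n) (π n) ε ∧
      tmix μ (k n) (π n) ε ≤ (1 + δ) * (Real.log n / (2 * θ)) := by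
    intro δ hδ hδ1
    filter_upwards [fina_up hUPS hCU hPT hd hμ hI hl0 hl1 hθ (fun x hx => (hdev x hx).1) hk hπ hε hδ,
      fina_lo hL hTY hCL hPT hF hd hμ hI hl0 hl1 hθ (fun x hx => (hdev x hx).2) hk hπ hε1 hδ hδ1]
      with n h1 h2
    refine ⟨?_, Pool.Agent.L7h96.UC.tmix_le _ _ _ _ _ h1.1 h1.2⟩
    exact le_csInf (s := {t : ℝ | 0 ≤ t ∧ dn μ (k n) (π n) t ≤ ε}) ⟨_, h1⟩
      fun t ht => h2 t ht.1 ht.2
  rw [Metric.tendsto_atTop']
  intro x hx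
  obtain ⟨δ, hδ⟩ : ∃ δ, δ = min (x / 2) (1 / 2) := ⟨_, rfl⟩
  have hδ0 : 0 < δ := by rw [hδ]; exact lt_min (by positivity) (by norm_num)
  have hδ1 : δ < 1 := by
    rw [hδ]; exact lt_of_le_of_lt (min_le_right _ _) (by norm_num)
  have hδx : δ < x := by
    rw [hδ]; exact lt_of_le_of_lt (min_le_left _ _) (by linarith)
  have h1 : ∀ᶠ n : ℕ in atTop, 1 ≤ Real.log n / (2 * θ) := (T_top hθ).eventually_ge_atTop _
  obtain ⟨N, hN⟩ := eventually_atTop.1 ((key δ hδ0 hδ1).and h1)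
  refine ⟨N, fun n hn => ?_⟩
  obtain ⟨⟨h2, h3⟩, h4⟩ := hN n (le_of_lt hn)
  have hT0 : 0 < Real.log n / (2 * θ) := by linarith
  show dist (tmix μ (k n) (π n) ε / (Real.log n / (2 * θ))) 1 < x
  rw [Real.dist_eq, abs_lt]
  constructor
  · have : 1 - δ ≤ tmix μ (k n) (π n) ε / (Real.log n / (2 * θ)) := by
      rw [le_div_iff₀ hT0]; exact h2
    linarith
  · have : tmix μ (k n) (π n) ε / (Real.log n / (2 * θ)) ≤ 1 + δ := by
      rw [div_le_iff₀ hT0]; exact h3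
    linarith

end Pool.Agent.L7h76.UC
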