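import Pool.Agent.L7h38.UC.Stm

set_option autoImplicit false

/-!
# Project UC, part RCH: all pairs of urns are connected by a random list of rings
-/

namespace Pool.Agent.L7h76.UC

open Finset Pool.Agent.L7h38.UC

/-- exponential decay from a contraction over `M` steps -/
theorem geo_decay {b : ℕ → ℝ} {M : ℕ} {r : ℝ} (hM : 1 ≤ M) (hr0 : 0 < r) (hr1 : r < 1)
    (h1 : ∀ N, b N ≤ 1) (h2 : ∀ N, b (M + N) ≤ r * b N) :
    ∃ C ρ : ℝ, 0 < C ∧ 0 < ρ ∧ ρ < 1 ∧ ∀ N, b N ≤ C * ρ ^ N := by
  have hM0 : (0 : ℝ) < M := by exact_mod_cast hM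
  have hρ0 : 0 < r ^ (1 / (M : ℝ)) := Real.rpow_pos_of_pos hr0 _
  have hρ1 : r ^ (1 / (M : ℝ)) < 1 := Real.rpow_lt_one hr0.le hr1 (by positivity)
  have hρM : (r ^ (1 / (M : ℝ))) ^ M = r := by
    rw [← Real.rpow_natCast, ← Real.rpow_mul hr0.le, one_div, inv_mul_cancel₀ hM0.ne',
      Real.rpow_one]
  refine ⟨1 / r, r ^ (1 / (M : ℝ)), by positivity, hρ0, hρ1, fun N => ?_⟩
  induction N using Nat.strong_induction_on with
  | _ N ih =>
    by_cases hN : N < M
    · have h3 : r ≤ (r ^ (1 / (M : ℝ))) ^ N := by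
        calc r = (r ^ (1 / (M : ℝ))) ^ M := hρM.symm
          _ ≤ (r ^ (1 / (M : ℝ))) ^ N := pow_le_pow_of_le_one hρ0.le hρ1.le hN.le
      refine (h1 N).trans ?_
      rw [one_div, ← div_eq_inv_mul, le_div_iff₀ hr0, one_mul]
      exact h3
    · obtain ⟨K, rfl⟩ := Nat.exists_eq_add_of_le (not_lt.1 hN)
      have h3 := ih K (by omega)
      calc b (M + K) ≤ r * b K := h2 K
        _ ≤ r * (1 / r * (r ^ (1 / (M : ℝ))) ^ K) := mul_le_mul_of_nonneg_left h3 hr0.le
        _ = 1 / r * (r ^ (1 / (M : ℝ))) ^ (M + K) := by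
          rw [pow_add, hρM]; ring

section

variable {d : ℕ} {μ : Equiv.Perm (Fin d) → ℝ}

theorem EW_mono (hμ : Pr μ) : ∀ (N : ℕ) (g h : List (Equiv.Perm (Fin d)) → ℝ),
    (∀ w, g w ≤ h w) → EW μ N g ≤ EW μ N h
  | 0, _, _, hgh => hgh []
  | N + 1, g, h, hgh => by
    unfold EW
    exact sum_le_sum fun σ _ => mul_le_mul_of_nonneg_left
      (EW_mono hμ N _ _ fun w => hgh (σ :: w)) (hμ.1 σ)

theorem EW_const (hμ : Pr μ) : ∀ (N : ℕ) (x : ℝ), EW μ N (fun _ => x) = x
  | 0, _ => rfl
  | N + 1, x => by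
    unfold EW
    simp only [EW_const hμ N x]
    rw [← sum_mul, hμ.2, one_mul]

theorem EW_mul : ∀ (N : ℕ) (x : ℝ) (g : List (Equiv.Perm (Fin d)) → ℝ),
    EW μ N (fun w => x * g w) = x * EW μ N g
  | 0, _, _ => rfl
  | N + 1, x, g => by
    unfold EW
    rw [mul_sum]
    refine sum_congr rfl fun σ _ => ?_
    rw [EW_mul N x]
    ring

theorem EW_sub : ∀ (N : ℕ) (g h : List (Equiv.Perm (Fin d)) → ℝ),
    EW μ N (fun w => g w - h w) = EW μ N g - EW μ N h
  | 0, _, _ => rfl
  | N + 1, g, h => by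
    unfold EW
    rw [← sum_sub_distrib]
    refine sum_congr rfl fun σ _ => ?_
    rw [EW_sub N]
    ring

theorem EW_append : ∀ (M N : ℕ) (g : List (Equiv.Perm (Fin d)) → ℝ),
    EW μ (M + N) g = EW μ M fun u => EW μ N fun w => g (u ++ w)
  | 0, N, g => by rw [Nat.zero_add]; rfl
  | M + 1, N, g => by
    rw [Nat.add_right_comm]
    unfold EW
    refine sum_congr rfl fun σ _ => ?_
    rw [EW_append M N]
    rfl

/-- the probability of the list `v` -/
theorem EW_eq : ∀ (v : List (Equiv.Perm (Fin d))), (∀ σ ∈ v, 0 < μ σ) →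
    0 < EW μ v.length (fun w => if w = v then 1 else 0)
  | [], _ => by simp [EW]
  | τ :: v, h => by
    have ih := EW_eq v (fun σ hσ => h σ (List.mem_cons_of_mem _ hσ))
    rw [List.length_cons]
    unfold EW
    have h1 : ∀ σ, EW μ v.length (fun w => if σ :: w = τ :: v then (1 : ℝ) else 0) =
        if σ = τ then EW μ v.length (fun w => if w = v then 1 else 0) else 0 := by
      intro σ
      by_cases hσ : σ = τ
      · subst hσ
        simp
      · rw [if_neg hσ]
        have h2 : (fun w : List (Equiv.Perm (Fin d)) => if σ :: w = τ :: v then (1 : ℝ) else 0) =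
            fun w => 0 * (if w = v then 1 else 0) := by
          funext w
          rw [if_neg (fun h => hσ (List.cons.inj h).1), zero_mul]
        rw [h2, EW_mul, zero_mul]
    simp only [h1, mul_ite, mul_zero, sum_ite_eq', mem_univ, if_true]
    exact mul_pos (h τ List.mem_cons_self) ih

theorem reach_refl : ∀ (w : List (Equiv.Perm (Fin d))) (x : Fin d), reach w x x
  | [], _ => rfl
  | _ :: w, x => Or.inl (reach_refl w x)

theorem reach_append : ∀ (u w : List (Equiv.Perm (Fin d))) (x y z : Fin d), reach u x y →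
    reach w y z → reach (u ++ w) x z
  | [], _, _, _, _, h1, h2 => by
    have h3 : _ = _ := h1
    subst h3
    exact h2
  | σ :: u, w, x, y, z, h1, h2 => by
    rcases h1 with h1 | h1
    · exact Or.inl (reach_append u w x y z h1 h2)
    · exact Or.inr (reach_append u w (σ x) y z h1 h2)

theorem exists_list (hμ : Pr μ) (hI : Irr μ) : ∃ v : List (Equiv.Perm (Fin d)),
    1 ≤ v.length ∧ (∀ σ ∈ v, 0 < μ σ) ∧ ∀ x y, reach v x y := by
  classical
  have h1 : ∀ x y : Fin d, ∃ v : List (Equiv.Perm (Fin d)), (∀ σ ∈ v, 0 < μ σ) ∧ reach v x y := by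
    intro x y
    induction hI x y with
    | refl => exact ⟨[], by simp, rfl⟩
    | tail _ h ih =>
      obtain ⟨v, hv1, hv2⟩ := ih
      obtain ⟨σ, hσ, rfl⟩ := h
      refine ⟨v ++ [σ], ?_, reach_append v [σ] _ _ _ hv2 (Or.inr rfl)⟩
      intro τ hτ
      rcases List.mem_append.1 hτ with h | h
      · exact hv1 τ h
      · rw [List.mem_singleton.1 h]; exact hσ
  have h2 : ∀ S : Finset (Fin d × Fin d), ∃ v : List (Equiv.Perm (Fin d)),
      (∀ σ ∈ v, 0 < μ σ) ∧ ∀ p ∈ S, reach v p.1 p.2 := by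
    intro S
    induction S using Finset.induction_on with
    | empty => exact ⟨[], by simp, by simp⟩
    | insert p S _ ih =>
      obtain ⟨v, hv1, hv2⟩ := ih
      obtain ⟨w, hw1, hw2⟩ := h1 p.1 p.2
      refine ⟨v ++ w, ?_, ?_⟩
      · intro τ hτ
        rcases List.mem_append.1 hτ with h | h
        · exact hv1 τ h
        · exact hw1 τ h
      · intro q hq
        rcases Finset.mem_insert.1 hq with rfl | hq
        · exact reach_append v w _ _ _ (reach_refl v _) hw2
        · exact reach_append v w _ _ _ (hv2 q hq) (reach_refl w _)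
  obtain ⟨v, hv1, hv2⟩ := h2 univ
  obtain ⟨σ, hσ⟩ : ∃ σ, 0 < μ σ := by
    by_contra hcon
    push Not at hcon
    have : ∑ σ, μ σ ≤ 0 := sum_nonpos fun σ _ => hcon σ
    rw [hμ.2] at this
    linarith
  refine ⟨σ :: v, by simp, ?_, fun x y => Or.inl (hv2 (x, y) (mem_univ _))⟩
  intro τ hτ
  rcases List.mem_cons.1 hτ with h | h
  · rw [h]; exact hσ
  · exact hv1 τ h

end

theorem s_RCH : S_RCH := by
  classical
  intro d μ hμ hI
  obtain ⟨v, hv0, hv1, hv2⟩ := exists_list hμ hI
  have hp := EW_eq v hv1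
  set p := EW μ v.length (fun w => if w = v then 1 else 0) with hpdef
  let bad : List (Equiv.Perm (Fin d)) → ℝ := fun w => if ∀ x y, reach w x y then 0 else 1
  have hbad0 : ∀ w, 0 ≤ bad w := by
    intro w; simp only [bad]; split_ifs <;> norm_num
  have hbad1 : ∀ w, bad w ≤ 1 := by
    intro w; simp only [bad]; split_ifs <;> norm_num
  have hb0 : ∀ N, 0 ≤ EW μ N bad := by
    intro N
    have := EW_mono hμ N (fun _ => 0) bad hbad0
    rwa [EW_const hμ] at this
  have hb1 : ∀ N, EW μ N bad ≤ 1 := by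
    intro N
    have := EW_mono hμ N bad (fun _ => 1) hbad1
    rwa [EW_const hμ] at this
  have hp1 : p ≤ 1 := by
    have := EW_mono hμ v.length (fun w => if w = v then 1 else 0) (fun _ => 1)
      (fun w => by split_ifs <;> norm_num)
    rwa [EW_const hμ] at this
  have hstep : ∀ N, EW μ (v.length + N) bad ≤ (1 - p) * EW μ N bad := by
    intro N
    rw [EW_append]
    have h1 : ∀ u : List (Equiv.Perm (Fin d)), EW μ N (fun w => bad (u ++ w)) ≤
        EW μ N bad - EW μ N bad * (if u = v then 1 else 0) := by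
      intro u
      by_cases hu : u = v
      · subst hu
        rw [if_pos rfl, mul_one, sub_self]
        have h2 : (fun w => bad (u ++ w)) = fun _ => 0 := by
          funext w
          simp only [bad]
          rw [if_pos]
          exact fun x y => reach_append u w x y y (hv2 x y) (reach_refl w y)
        rw [h2, EW_const hμ]
      · rw [if_neg hu, mul_zero, sub_zero]
        refine EW_mono hμ N _ _ fun w => ?_
        by_cases hw : ∀ x y, reach w x y
        · have h3 : bad (u ++ w) = 0 := by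
            simp only [bad]
            rw [if_pos]
            exact fun x y => reach_append u w x x y (reach_refl u x) (hw x y)
          rw [h3]
          exact hbad0 w
        · have h3 : bad w = 1 := by
            simp only [bad]
            rw [if_neg hw]
          rw [h3]
          exact hbad1 _
    refine (EW_mono hμ v.length _ _ h1).trans (le_of_eq ?_)
    rw [EW_sub, EW_const hμ, EW_mul, ← hpdef]
    ring
  obtain ⟨C, ρ, h1, h2, h3, h4⟩ := geo_decay (b := fun N => EW μ N bad) (M := v.length)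
    (r := 1 - p / 2) hv0 (by linarith) (by linarith) hb1 (fun N => (hstep N).trans
      (mul_le_mul_of_nonneg_right (by linarith) (hb0 N)))
  refine ⟨C, ρ, h1, h2, h3, fun N => ?_⟩
  refine le_trans (le_of_eq ?_) (h4 N)
  congr 1

end Pool.Agent.L7h76.UC
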